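import Pool.Agent.helper73.BS.Spec

set_option autoImplicit false

namespace Pool.Agent.BS

open Matrix Module Pool.Agent.UG Pool.Agent.H48SL Pool.Agent.SHL

/-- scalar extension of a rational subspace -/
noncomputable def EG_K {n : ℕ} (W : Submodule ℚ (VQ n)) : Submodule KB (Fin n → KB) :=
  Submodule.span KB {v | ∃ w ∈ W, v = fun a => algebraMap ℚ KB (w a)}

theorem EG_map {n : ℕ} (M : MQ n) (w : VQ n) :
    M.map (algebraMap ℚ KB) *ᵥ (fun a => algebraMap ℚ KB (w a)) =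
      fun a => algebraMap ℚ KB ((M *ᵥ w) a) := by
  funext a
  exact (RingHom.map_mulVec (algebraMap ℚ KB) M w a).symm

theorem EG_maps {n : ℕ} (M : MQ n) (W W' : Submodule ℚ (VQ n)) (h : ∀ w ∈ W, M *ᵥ w ∈ W')
    (v : Fin n → KB) (hv : v ∈ EG_K W) : M.map (algebraMap ℚ KB) *ᵥ v ∈ EG_K W' := by
  unfold EG_K at hv
  induction hv using Submodule.span_induction with
  | mem x hx =>
    obtain ⟨w, hw, rfl⟩ := hx
    rw [EG_map]
    exact Submodule.subset_span ⟨_, h w hw, rfl⟩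
  | zero =>
    rw [Matrix.mulVec_zero]
    exact Submodule.zero_mem _
  | add x y _ _ hx hy =>
    rw [Matrix.mulVec_add]
    exact Submodule.add_mem _ hx hy
  | smul c x _ hx =>
    rw [Matrix.mulVec_smul]
    exact Submodule.smul_mem _ c hx

theorem EG_bot {n : ℕ} : EG_K (⊥ : Submodule ℚ (VQ n)) = ⊥ := by
  unfold EG_K
  rw [Submodule.span_eq_bot]
  rintro v ⟨w, hw, rfl⟩
  rw [Submodule.mem_bot] at hw
  rw [hw]
  funext a
  simp

theorem EG_top {n : ℕ} : EG_K (⊤ : Submodule ℚ (VQ n)) = ⊤ := by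
  classical
  rw [Submodule.eq_top_iff']
  intro v
  have h1 : v = ∑ a, v a • (Pi.single a (1 : KB)) := by
    funext b
    rw [Finset.sum_apply, Finset.sum_eq_single b]
    · simp
    · intro a _ hab
      simp [Pi.single_apply, Ne.symm hab]
    · intro h
      exact absurd (Finset.mem_univ b) h
  rw [h1]
  refine Submodule.sum_mem _ fun a _ => Submodule.smul_mem _ _ (Submodule.subset_span ?_)
  refine ⟨Pi.single a 1, trivial, ?_⟩
  funext b
  by_cases hab : b = a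
  · subst hab
    simp
  · rw [Pi.single_eq_of_ne hab, Pi.single_eq_of_ne hab, map_zero]

theorem EG_pow {n : ℕ} {P : Subgroup (SLZ n)} {𝔲 : Submodule ℚ (MQ n)} {k : ℕ}
    {W : ℕ → Submodule ℚ (VQ n)} (h : FS P 𝔲 k W) {X : MQ n} (hX : X ∈ 𝔲) (i m : ℕ) :
    ∀ w ∈ W i, (X ^ m) *ᵥ w ∈ W i := by
  induction m with
  | zero => intro w hw; simpa using hw
  | succ m ih =>
    intro w hw
    rw [pow_succ, ← mulVec_mulVec]
    refine ih _ ?_
    cases i with
    | zero =>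
      rw [h.bot, Submodule.mem_bot] at hw
      rw [hw, Matrix.mulVec_zero]
      exact (W 0).zero_mem
    | succ i => exact h.mono (Nat.le_succ i) (h.down X hX i w hw)

theorem EG_E {n : ℕ} {P : Subgroup (SLZ n)} {𝔲 : Submodule ℚ (MQ n)} {k : ℕ}
    {W : ℕ → Submodule ℚ (VQ n)} (h : FS P 𝔲 k W) {X : MQ n} (hX : X ∈ 𝔲) (i : ℕ) :
    ∀ w ∈ W (i + 1), (IsNilpotent.exp X - 1) *ᵥ w ∈ W i := by
  intro w hw
  have hnil : IsNilpotent X := fil_one_nil h.bot h.top ((mem_fil_one h.bot).2 (h.down X hX))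
  obtain ⟨N, hN⟩ := hnil
  have hN' : X ^ (N + 1) = 0 := by rw [pow_succ, hN, zero_mul]
  have h4 : IsNilpotent.exp X = ∑ i ∈ Finset.range (N + 1), ((i.factorial : ℚ)⁻¹) • X ^ i :=
    IsNilpotent.exp_eq_sum hN'
  have h5 : IsNilpotent.exp X - 1 = ∑ i ∈ Finset.range N, (((i + 1).factorial : ℚ)⁻¹) • X ^ (i + 1) := by
    rw [h4, Finset.sum_range_succ']
    simp only [Nat.factorial_zero, Nat.cast_one, inv_one, pow_zero, one_smul,
      add_sub_cancel_right]
  rw [h5, Matrix.sum_mulVec]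
  refine Submodule.sum_mem _ fun m _ => ?_
  rw [Matrix.smul_mulVec]
  refine Submodule.smul_mem _ _ ?_
  rw [pow_succ, ← mulVec_mulVec]
  exact EG_pow h hX i m _ (h.down X hX i w hw)

theorem EG_core {n : ℕ} {P : Subgroup (SLZ n)} {𝔲 : Submodule ℚ (MQ n)} {k : ℕ}
    {W : ℕ → Submodule ℚ (VQ n)} (h : FS P 𝔲 k W) {X : MQ n} (hX : X ∈ 𝔲) {g : SLZ n}
    (hg : g ∈ P) (l : KB) (w : Fin n → KB) (hw : w ≠ 0)
    (hy : (IsNilpotent.exp X * qg g).map (algebraMap ℚ KB) *ᵥ w = l • w) :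
    ∃ v : Fin n → KB, v ≠ 0 ∧ (qg g).map (algebraMap ℚ KB) *ᵥ v = l • v := by
  classical
  have hex : ∃ j, w ∈ EG_K (W j) := ⟨k, by rw [h.top, EG_top]; trivial⟩
  have hj := Nat.find_spec hex
  have hjmin := fun m => Nat.find_min (H := hex) (m := m)
  set j := Nat.find hex with hjdef
  have hj0 : j ≠ 0 := by
    intro h0
    rw [h0, h.bot, EG_bot, Submodule.mem_bot] at hj
    exact hw hj
  obtain ⟨i, hi⟩ := Nat.exists_eq_succ_of_ne_zero hj0
  rw [hi] at hj
  have hwi : w ∉ EG_K (W i) := hjmin i (by rw [hi]; exact Nat.lt_succ_self i)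
  set G : Matrix (Fin n) (Fin n) KB := (qg g).map (algebraMap ℚ KB) with hG
  have hGst : ∀ a, ∀ v ∈ EG_K (W a), G *ᵥ v ∈ EG_K (W a) := fun a v hv =>
    EG_maps (qg g) (W a) (W a) (h.stab g hg a) v hv
  have hyw : (IsNilpotent.exp X).map (algebraMap ℚ KB) *ᵥ (G *ᵥ w) = l • w := by
    rw [← hy, Matrix.map_mul, ← mulVec_mulVec]
  have hE : (IsNilpotent.exp X - 1).map (algebraMap ℚ KB) *ᵥ (G *ᵥ w) ∈ EG_K (W i) :=
    EG_maps (IsNilpotent.exp X - 1) (W (i + 1)) (W i) (EG_E h hX i) _ (hGst _ w hj)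
  have hTw : G *ᵥ w - l • w ∈ EG_K (W i) := by
    have h1 : (IsNilpotent.exp X - 1).map (algebraMap ℚ KB) =
        (IsNilpotent.exp X).map (algebraMap ℚ KB) - 1 := by
      rw [Matrix.map_sub _ (fun a b => map_sub (algebraMap ℚ KB) a b),
        Matrix.map_one _ (map_zero _) (map_one _)]
    rw [h1, Matrix.sub_mulVec, Matrix.one_mulVec, hyw] at hE
    have h2 := Submodule.neg_mem _ hE
    rw [neg_sub] at h2
    exact h2
  by_contra hcon
  push Not at hcon
  -- the map `T`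
  have hTinj : ∀ v : Fin n → KB, G *ᵥ v - l • v = 0 → v = 0 := by
    intro v hv
    by_contra hv0
    exact hcon v hv0 (sub_eq_zero.1 hv)
  have hTst : ∀ v ∈ EG_K (W i), G *ᵥ v - l • v ∈ EG_K (W i) := fun v hv =>
    Submodule.sub_mem _ (hGst i v hv) (Submodule.smul_mem _ l hv)
  let T : EG_K (W i) →ₗ[KB] EG_K (W i) :=
    { toFun := fun v => ⟨G *ᵥ (v : Fin n → KB) - l • (v : Fin n → KB), hTst v v.2⟩
      map_add' := by
        intro a b
        apply Subtype.ext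
        show G *ᵥ ((a : Fin n → KB) + b) - l • ((a : Fin n → KB) + b) =
          (G *ᵥ (a : Fin n → KB) - l • (a : Fin n → KB)) +
            (G *ᵥ (b : Fin n → KB) - l • (b : Fin n → KB))
        rw [Matrix.mulVec_add, smul_add]
        abel
      map_smul' := by
        intro c a
        apply Subtype.ext
        show G *ᵥ (c • (a : Fin n → KB)) - l • (c • (a : Fin n → KB)) =
          c • (G *ᵥ (a : Fin n → KB) - l • (a : Fin n → KB))
        rw [Matrix.mulVec_smul, smul_sub, smul_comm l c] }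
  have hT : Function.Injective T := by
    rw [injective_iff_map_eq_zero]
    intro a ha
    exact Subtype.ext (hTinj a (congrArg Subtype.val ha))
  have hTs : Function.Surjective T := LinearMap.injective_iff_surjective.1 hT
  obtain ⟨v, hv⟩ := hTs ⟨_, hTw⟩
  have h3 : G *ᵥ (v : Fin n → KB) - l • (v : Fin n → KB) = G *ᵥ w - l • w :=
    congrArg Subtype.val hv
  have h4 : w - (v : Fin n → KB) = 0 := by
    apply hTinj
    rw [Matrix.mulVec_sub, smul_sub]
    have h5 : G *ᵥ w - G *ᵥ (v : Fin n → KB) - (l • w - l • (v : Fin n → KB)) =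
        (G *ᵥ w - l • w) - (G *ᵥ (v : Fin n → KB) - l • (v : Fin n → KB)) := by abel
    rw [h5, h3, sub_self]
  apply hwi
  rw [sub_eq_zero.1 h4]
  exact v.2

theorem EG (hEXJ : UG.EXJ_stmt) : EG_stmt := by
  intro n P 𝔲 k W h X hX g hg
  obtain ⟨Λ, hΛ, hl⟩ := h.neat g hg
  refine ⟨Λ, hΛ, ?_⟩
  intro l w hw hy
  obtain ⟨v, hv, hgv⟩ := EG_core h hX hg l w hw hy
  exact hl l v hv hgv

end Pool.Agent.BS
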