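import Pool.Agent.helper73.BS.Spec

/-!
# Row bs:FF: the space `ff P 𝔲`
-/

set_option autoImplicit false

namespace Pool.Agent.BS

open Matrix Module Pool.Agent.UG Pool.Agent.H48SL Pool.Agent.SHL

theorem FF_smul {n : ℕ} {P : Subgroup (SLZ n)} {W : ℕ → Submodule ℚ (VQ n)} {X : MQ n}
    (hX : Rad P W X) (c : ℚ) : Rad P W (c • X) := by
  refine ⟨fun i w hw => ?_, fun t => ?_⟩
  · rw [Matrix.smul_mulVec]
    exact (W i).smul_mem c (hX.1 i w hw)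
  · rw [smul_smul]
    exact hX.2 (t * c)

theorem FF (hZG : ZG_stmt) (hRL : RL_stmt) (hRU : RU_stmt) (hRS : RS_stmt) (hRC : RC_stmt) (hRA : RA_stmt) (hJE : JE_stmt) (hEXJ : UG.EXJ_stmt) : FF_stmt := by
  intro n P 𝔲 k W hFS
  have hmz : ∀ g ∈ P, qg g ∈ ZQ (mz P) := fun g hg => subset_ZQ _ ⟨g, hg, rfl⟩
  have h1 : ∀ X ∈ ff P 𝔲, Rad P W X := by
    intro X hX
    obtain ⟨Y, hY, Z, hZ, rfl⟩ := Submodule.mem_sup.1 hX
    refine hRL n P 𝔲 k W hFS Y Z ((hRU n P 𝔲 k W hFS).1 Y hY) ?_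
    clear hX
    induction hZ using Submodule.span_induction with
    | mem N hN =>
      obtain ⟨g, hg, s, hs⟩ := hN
      exact ((hRU n P 𝔲 k W hFS).2 (qg g) (hmz g hg) s N hs).1
    | zero => exact (hRU n P 𝔲 k W hFS).1 0 𝔲.zero_mem
    | add A B _ _ hA hB =>
      exact hRL n P 𝔲 k W hFS A B hA hB
    | smul c A _ hA => exact FF_smul hA c
  have hle : 𝔲 ≤ ff P 𝔲 := le_sup_left
  refine ⟨h1, ?_, ?_, ?_⟩
  · intro X hX Y hY
    obtain ⟨Z, _, hZ2, hZ3⟩ := hRS n P 𝔲 k W hFS X Y (h1 X hX) (h1 Y hY)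
    refine ⟨Z, ?_, hZ2, hZ3⟩
    have h2 : Z = (Z - X - Y) + (X + Y) := by abel
    rw [h2]
    exact (ff P 𝔲).add_mem (hle hZ3) ((ff P 𝔲).add_mem hX hY)
  · intro X hX g hg
    have h2 := hRC n P 𝔲 k W hFS X (h1 X hX) g hg
    refine ⟨?_, h2⟩
    have h3 : g * X * g⁻¹ = (g * X * g⁻¹ - X) + X := by abel
    rw [h3]
    exact (ff P 𝔲).add_mem (hle h2) hX
  · intro X hX g hg s N s₀ N₀ hJ hJ0
    have h2 := hRA n P 𝔲 k W hFS X (h1 X hX) (qg g) (hmz g hg) s₀ N₀ s N hJ0 hJ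
    refine ⟨?_, h2⟩
    have h3 : N = (N - X - N₀) + (X + N₀) := by abel
    rw [h3]
    refine (ff P 𝔲).add_mem (hle h2) ((ff P 𝔲).add_mem hX ?_)
    exact Submodule.mem_sup_right (Submodule.subset_span ⟨g, hg, s₀, hJ0⟩)

end Pool.Agent.BS
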