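import Pool.Agent.helper73.BS.Spec

set_option autoImplicit false

namespace Pool.Agent.BS

open Matrix Module Pool.Agent.UG Pool.Agent.H48SL Pool.Agent.SHL

theorem XA_sum {ι : Type} (Λ : Subgroup KBˣ) (s : Finset ι) (z : ι → KBˣ)
    (q : ι → Polynomial KB) (hz : ∀ i ∈ s, z i ∈ Λ) (ψ : ℕ → ℚ → KB)
    (h : ∀ k x, ψ k x = ∑ i ∈ s, (q i).eval (algebraMap ℚ KB x) * (z i : KB) ^ k) :
    CF Λ ψ := by
  classical
  refine ⟨s.image z, fun w => ∑ i ∈ s.filter (fun i => z i = w), q i, ?_, ?_⟩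
  · intro w hw
    obtain ⟨i, hi, rfl⟩ := Finset.mem_image.1 hw
    exact hz i hi
  · intro k x
    rw [h k x, ← Finset.sum_fiberwise_of_maps_to (t := s.image z) (g := z)
      (fun i hi => Finset.mem_image_of_mem z hi)]
    refine Finset.sum_congr rfl fun w _ => ?_
    rw [Polynomial.eval_finset_sum, Finset.sum_mul]
    refine Finset.sum_congr rfl fun i hi => ?_
    rw [(Finset.mem_filter.1 hi).2]

theorem XA_one (Λ : Subgroup KBˣ) (z : KBˣ) (hz : z ∈ Λ) (q : Polynomial KB) (ψ : ℕ → ℚ → KB)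
    (h : ∀ k x, ψ k x = q.eval (algebraMap ℚ KB x) * (z : KB) ^ k) : CF Λ ψ := by
  refine XA_sum Λ ({()} : Finset Unit) (fun _ => z) (fun _ => q) (fun _ _ => hz) ψ ?_
  intro k x
  rw [Finset.sum_singleton]
  exact h k x

theorem XA : XA_stmt := by
  classical
  intro Λ
  refine ⟨?_, ?_, ?_, ?_, ?_⟩
  · intro c
    refine XA_one Λ 1 Λ.one_mem (Polynomial.C c) _ ?_
    intro k x
    rw [Polynomial.eval_C, Units.val_one, one_pow, mul_one]
  · refine XA_one Λ 1 Λ.one_mem Polynomial.X _ ?_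
    intro k x
    rw [Polynomial.eval_X, Units.val_one, one_pow, mul_one]
  · intro z hz
    refine XA_one Λ z hz 1 _ ?_
    intro k x
    rw [Polynomial.eval_one, one_mul]
  · rintro ψ χ ⟨t, p, ht, hp⟩ ⟨u, q, hu, hq⟩
    refine XA_sum Λ (t.disjSum u) (Sum.elim _root_.id _root_.id) (Sum.elim p q) ?_ _ ?_
    · intro i hi
      rcases i with i | i
      · exact ht i (Finset.inl_mem_disjSum.1 hi)
      · exact hu i (Finset.inr_mem_disjSum.1 hi)
    · intro k x
      rw [Finset.sum_disjSum, hp k x, hq k x]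
      rfl
  · rintro ψ χ ⟨t, p, ht, hp⟩ ⟨u, q, hu, hq⟩
    refine XA_sum Λ (t ×ˢ u) (fun i => i.1 * i.2) (fun i => p i.1 * q i.2) ?_ _ ?_
    · intro i hi
      have h1 := Finset.mem_product.1 hi
      exact Λ.mul_mem (ht _ h1.1) (hu _ h1.2)
    · intro k x
      rw [hp k x, hq k x, Finset.sum_mul_sum, Finset.sum_product]
      refine Finset.sum_congr rfl fun z _ => Finset.sum_congr rfl fun w _ => ?_
      rw [Polynomial.eval_mul, Units.val_mul, mul_pow]
      ring

end Pool.Agent.BS
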